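import Pool.Agent.W536.XI.Stm

/-!
XI-GASY: asymptotics of G by a local contour shift (subtask 3252).
-/

set_option autoImplicit false

open Complex MeasureTheory Filter Topology

namespace Pool.Agent.W462.XI

open W536.XI

/-! ### Gaussian tails -/

theorem gauss_int (b t : ℝ) (hb : 0 < b) : Integrable (fun v : ℝ => Real.exp (-(b * (v - t) ^ 2))) := by
  have h := (integrable_exp_neg_mul_sq hb).comp_sub_right t
  refine h.congr (Eventually.of_forall fun v => ?_)
  simp only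
  congr 1
  ring

theorem gauss_val (b t : ℝ) : ∫ v : ℝ, Real.exp (-(b * (v - t) ^ 2)) = Real.sqrt (Real.pi / b) := by
  have h := integral_gaussian b
  have h2 := integral_sub_right_eq_self (fun x : ℝ => Real.exp (-b * x ^ 2)) (μ := volume) t
  rw [← h, ← h2]
  congr 1
  funext v
  congr 1
  ring

theorem tail_le {f : ℝ → ℂ} {t V B b : ℝ} (hV : 0 ≤ V) (hb : 0 < b) (hB : 0 ≤ B)
    (h : ∀ v, V ≤ |v - t| → ‖f v‖ ≤ B * Real.exp (-(b * (v - t) ^ 2))) :
    ‖∫ v in (Set.Ioc (t - V) (t + V))ᶜ, f v‖ ≤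
      B * Real.exp (-(b / 2 * V ^ 2)) * Real.sqrt (Real.pi / (b / 2)) := by
  have hI : Integrable (fun v : ℝ => B * Real.exp (-(b / 2 * V ^ 2)) *
      Real.exp (-(b / 2 * (v - t) ^ 2))) := (gauss_int (b / 2) t (by linarith)).const_mul _
  have h1 : ‖∫ v in (Set.Ioc (t - V) (t + V))ᶜ, f v‖ ≤
      ∫ v in (Set.Ioc (t - V) (t + V))ᶜ, B * Real.exp (-(b / 2 * V ^ 2)) *
        Real.exp (-(b / 2 * (v - t) ^ 2)) := by
    refine norm_integral_le_of_norm_le hI.integrableOn ?_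
    refine (ae_restrict_iff' measurableSet_Ioc.compl).2 (Eventually.of_forall fun v hv => ?_)
    have hX : V ≤ |v - t| := by
      by_contra hcon
      push Not at hcon
      rw [abs_lt] at hcon
      exact hv ⟨by linarith [hcon.1], by linarith [hcon.2]⟩
    refine (h v hX).trans ?_
    rw [mul_assoc, ← Real.exp_add]
    refine mul_le_mul_of_nonneg_left (Real.exp_le_exp.2 ?_) hB
    have h2 : V ^ 2 ≤ (v - t) ^ 2 := by
      rw [← sq_abs (v - t)]
      exact pow_le_pow_left₀ hV hX 2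
    nlinarith
  refine h1.trans ?_
  have h2 := setIntegral_le_integral (s := (Set.Ioc (t - V) (t + V))ᶜ) hI
    (Eventually.of_forall fun v => by simp only [Pi.zero_apply]; positivity)
  refine h2.trans (le_of_eq ?_)
  rw [integral_const_mul, gauss_val]

/-! ### The data -/

structure Hyp (C A y lam : ℝ) (l s : ℂ) : Prop where
  hC : 1 ≤ C
  hA : 1 ≤ A
  hlam : Real.log y = lam
  hy : 0 < y
  big : 400 * C * A ^ 2 ≤ lam
  yb : 64 * C * A ^ 2 * lam ^ 4 ≤ y
  hG : GamAt C y l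
  hs : ‖s - I * y‖ ≤ A * lam ^ 2

variable {C A y lam : ℝ} {l s : ℂ}

namespace Hyp

theorem lam400 (H : Hyp C A y lam l s) : 400 ≤ lam := by
  have h1 := H.big
  have h2 := H.hC
  have h3 : 1 ≤ A ^ 2 := one_le_pow₀ H.hA
  nlinarith

theorem lamC (H : Hyp C A y lam l s) : 400 * C ≤ lam := by
  have h1 := H.big
  have h2 := H.hC
  have h3 : 1 ≤ A ^ 2 := one_le_pow₀ H.hA
  nlinarith

theorem lamA (H : Hyp C A y lam l s) : 400 * A ≤ lam := by
  have h1 := H.big
  have h2 := H.hC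
  have h3 := H.hA
  have h4 : 400 * C * A ^ 2 - 400 * A = 400 * A * (C * A - 1) := by ring
  have h5 : 0 ≤ 400 * A * (C * A - 1) := by
    apply mul_nonneg (by linarith)
    nlinarith
  linarith

theorem ybig (H : Hyp C A y lam l s) : 64 * lam ^ 4 ≤ y := by
  have h1 := H.yb
  have h2 := H.hC
  have h3 : 1 ≤ A ^ 2 := one_le_pow₀ H.hA
  have h4 : 1 ≤ C * A ^ 2 := by nlinarith
  have h5 : 0 ≤ lam ^ 4 := by positivity
  nlinarith

theorem ybig2 (H : Hyp C A y lam l s) : 64 * A * lam ^ 2 ≤ y := by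
  have h1 := H.yb
  have h2 := H.hC
  have h3 := H.hA
  have h4 := H.lam400
  have h5 : 64 * A * lam ^ 2 ≤ 64 * C * A ^ 2 * lam ^ 4 := by
    have e1 : 64 * A * lam ^ 2 * 1 ≤ 64 * A * lam ^ 2 * (C * A * lam ^ 2) := by
      apply mul_le_mul_of_nonneg_left _ (by positivity)
      have h6 : 1 ≤ C * A := by nlinarith
      have h7 : 1 ≤ lam ^ 2 := by nlinarith
      nlinarith
    nlinarith
  linarith

theorem ybig3 (H : Hyp C A y lam l s) : 64 * C ≤ y ∧ 7104 ≤ y ∧ 72 * C ≤ y := by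
  have h1 := H.ybig
  have h2 := H.lamC
  have h4 := H.lam400
  have h5 : lam ≤ lam ^ 4 := by
    calc lam = lam ^ 1 := (pow_one _).symm
      _ ≤ lam ^ 4 := pow_le_pow_right₀ (by linarith) (by norm_num)
  have h6 := H.hC
  refine ⟨by nlinarith, by nlinarith, by nlinarith⟩

theorem nl (H : Hyp C A y lam l s) : ‖l‖ ≤ lam := by
  have h1 := H.hG.1
  rw [H.hlam] at h1
  have h2 : ‖l‖ ≤ ‖l - (lam / 2 : ℝ)‖ + ‖((lam / 2 : ℝ) : ℂ)‖ := by
    have := norm_add_le (l - (lam / 2 : ℝ)) ((lam / 2 : ℝ) : ℂ)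
    rwa [sub_add_cancel] at this
  have h3 := H.lamC
  have h4 := H.hC
  rw [Complex.norm_real, Real.norm_eq_abs, abs_of_nonneg (by linarith)] at h2
  linarith

theorem gpos (H : Hyp C A y lam l s) : 0 < ‖hh (I * y)‖ := (Real.exp_pos _).trans_le H.hG.2.1

/-- bound for `hh` near `iy` -/
theorem hh_le (H : Hyp C A y lam l s) {w : ℂ} (hd : ‖w - I * y‖ ≤ y / 8) :
    ‖hh w‖ ≤ ‖hh (I * y)‖ * Real.exp (lam * ‖w - I * y‖ + C * ‖w - I * y‖ ^ 2 / y) := by
  obtain ⟨e, he, he2⟩ := H.hG.2.2 (w - I * y) hd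
  rw [add_sub_cancel] at he2
  rw [he2, norm_mul, Complex.norm_exp]
  refine mul_le_mul_of_nonneg_left (Real.exp_le_exp.2 ?_) (norm_nonneg _)
  refine (Complex.re_le_norm _).trans ((norm_add_le _ _).trans ?_)
  rw [norm_mul]
  exact add_le_add (mul_le_mul_of_nonneg_right H.nl (norm_nonneg _)) he

end Hyp

/-- the integrand -/
noncomputable def ph (s w : ℂ) : ℂ := hh w * cexp ((w - s) ^ 2 / 4)

theorem norm_e (s w : ℂ) :
    ‖cexp ((w - s) ^ 2 / 4)‖ = Real.exp (((w - s).re ^ 2 - (w - s).im ^ 2) / 4) := by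
  rw [Complex.norm_exp]
  congr 1
  have : ((w - s) ^ 2 / 4).re = ((w - s) ^ 2).re / 4 := by
    rw [show (4 : ℂ) = ((4 : ℝ) : ℂ) by norm_num, Complex.div_ofReal_re]
  rw [this, sq, Complex.mul_re]
  ring

namespace Hyp

theorem re_s (H : Hyp C A y lam l s) : |s.re| ≤ A * lam ^ 2 := by
  have h1 := (Complex.abs_re_le_norm (s - I * y)).trans H.hs
  have h2 : (s - I * y).re = s.re := by simp
  rwa [h2] at h1

theorem im_s (H : Hyp C A y lam l s) : |s.im - y| ≤ A * lam ^ 2 := by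
  have h1 := (Complex.abs_im_le_norm (s - I * y)).trans H.hs
  have h2 : (s - I * y).im = s.im - y := by simp
  rwa [h2] at h1

theorem lin2 (H : Hyp C A y lam l s) : 2 + 2 * lam ≤ A * lam ^ 2 := by
  have h1 := H.lam400
  have h2 := H.hA
  have h3 : 1 * lam ^ 2 ≤ A * lam ^ 2 := mul_le_mul_of_nonneg_right h2 (by positivity)
  nlinarith

/-- the tail -/
theorem tail (H : Hyp C A y lam l s) {v : ℝ} (hv : 4 * A * lam ^ 2 ≤ |v - s.im|) :
    ‖ph s (2 + I * v)‖ ≤ ‖hh (I * y)‖ * Real.exp (-(1 / 8 * (v - s.im) ^ 2))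
      ∨ ¬ (‖hh (2 + I * v)‖ ≤ 1 + |v|) := by
  by_cases hcr : ‖hh (2 + I * v)‖ ≤ 1 + |v|
  swap
  · exact Or.inr hcr
  left
  have hL := H.lam400
  have hA := H.hA
  have h2 := H.lin2
  obtain ⟨y1, y2, y3⟩ := H.ybig3
  have hy := H.hy
  obtain ⟨X, hX⟩ : ∃ X, X = |v - s.im| := ⟨_, rfl⟩
  rw [← hX] at hv
  have hX2 : (v - s.im) ^ 2 = X ^ 2 := by rw [hX, sq_abs]
  have hX0 : 0 ≤ X := by rw [hX]; exact abs_nonneg _
  have hAl : 0 ≤ A * lam ^ 2 := by positivity
  have hXl : 48 * lam ≤ X := by nlinarith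
  -- the Gaussian factor
  have hre : ((2 + I * v : ℂ) - s).re = 2 - s.re := by simp
  have him : ((2 + I * v : ℂ) - s).im = v - s.im := by simp
  have hg1 : (2 - s.re) ^ 2 ≤ X ^ 2 / 4 := by
    have h3 := abs_le.1 H.re_s
    have h4 : |2 - s.re| ≤ X / 2 := by
      rw [abs_le]
      constructor <;> nlinarith
    rw [← sq_abs (2 - s.re)]
    have h5 := pow_le_pow_left₀ (abs_nonneg _) h4 2
    nlinarith
  have hE : ‖cexp ((2 + I * v - s) ^ 2 / 4)‖ ≤ Real.exp (-(3 / 16 * X ^ 2)) := by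
    rw [norm_e, hre, him, hX2]
    apply Real.exp_le_exp.2
    linarith
  -- the distance
  have hd : ‖(2 + I * v : ℂ) - I * y‖ ≤ 3 / 2 * X := by
    have e : (2 + I * v : ℂ) - I * y = 2 + I * ((v - y : ℝ) : ℂ) := by push_cast; ring
    rw [e]
    refine (norm_add_le _ _).trans ?_
    rw [norm_mul, Complex.norm_I, one_mul, Complex.norm_real, Real.norm_eq_abs]
    have h3 : |v - y| ≤ X + A * lam ^ 2 := by
      have : v - y = (v - s.im) + (s.im - y) := by ring
      rw [this]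
      refine (abs_add_le _ _).trans ?_
      rw [← hX]
      linarith [H.im_s]
    have h4 : ‖(2 : ℂ)‖ = 2 := by simp
    rw [h4]
    nlinarith
  unfold ph
  rw [norm_mul, hX2]
  by_cases hcase : ‖(2 + I * v : ℂ) - I * y‖ ≤ y / 8
  · have h3 := H.hh_le hcase
    have h4 : lam * ‖(2 + I * v : ℂ) - I * y‖ + C * ‖(2 + I * v : ℂ) - I * y‖ ^ 2 / y ≤
        X ^ 2 / 32 + X ^ 2 / 32 := by
      apply add_le_add
      · have h5 : lam * ‖(2 + I * v : ℂ) - I * y‖ ≤ lam * (3 / 2 * X) :=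
          mul_le_mul_of_nonneg_left hd (by linarith)
        nlinarith
      · rw [div_le_iff₀ hy]
        have h5 := pow_le_pow_left₀ (norm_nonneg _) hd 2
        have h6 := H.hC
        have h7 : C * ‖(2 + I * v : ℂ) - I * y‖ ^ 2 ≤ C * (3 / 2 * X) ^ 2 :=
          mul_le_mul_of_nonneg_left h5 (by linarith)
        have h8 : C * (3 / 2 * X) ^ 2 ≤ X ^ 2 / 32 * y := by
          have h9 : 72 * C * X ^ 2 ≤ y * X ^ 2 := mul_le_mul_of_nonneg_right y3 (by positivity)
          nlinarith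
        linarith
    calc ‖hh (2 + I * v)‖ * ‖cexp ((2 + I * v - s) ^ 2 / 4)‖
        ≤ (‖hh (I * y)‖ * Real.exp (X ^ 2 / 32 + X ^ 2 / 32)) * Real.exp (-(3 / 16 * X ^ 2)) := by
          refine mul_le_mul (h3.trans ?_) hE (norm_nonneg _) (by positivity)
          exact mul_le_mul_of_nonneg_left (Real.exp_le_exp.2 h4) (norm_nonneg _)
      _ = ‖hh (I * y)‖ * Real.exp (-(1 / 8 * X ^ 2)) := by
          rw [mul_assoc, ← Real.exp_add]
          congr 2
          ring
  · push Not at hcase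
    have hXy : y ≤ 12 * X := by linarith
    have hX592 : 592 ≤ X := by linarith
    have hvv : 1 + |v| ≤ Real.exp (26 * X) := by
      have h3 : |v| ≤ X + y + A * lam ^ 2 := by
        have : v = (v - s.im) + (s.im - y) + y := by ring
        calc |v| = |(v - s.im) + (s.im - y) + y| := by rw [← this]
          _ ≤ |v - s.im| + |s.im - y| + |y| := abs_add_three _ _ _
          _ ≤ X + y + A * lam ^ 2 := by
              rw [← hX, abs_of_pos hy]
              linarith [H.im_s]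
      have h4 := H.ybig2
      have h5 := Real.add_one_le_exp (26 * X)
      nlinarith
    calc ‖hh (2 + I * v)‖ * ‖cexp ((2 + I * v - s) ^ 2 / 4)‖
        ≤ Real.exp (26 * X) * Real.exp (-(3 / 16 * X ^ 2)) :=
          mul_le_mul (hcr.trans hvv) hE (norm_nonneg _) (Real.exp_pos _).le
      _ = Real.exp (26 * X - 3 / 16 * X ^ 2) := by
          rw [← Real.exp_add]
          congr 1
      _ ≤ Real.exp (-y + -(1 / 8 * X ^ 2)) := by
          apply Real.exp_le_exp.2
          nlinarith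
      _ = Real.exp (-y) * Real.exp (-(1 / 8 * X ^ 2)) := Real.exp_add _ _
      _ ≤ ‖hh (I * y)‖ * Real.exp (-(1 / 8 * X ^ 2)) :=
          mul_le_mul_of_nonneg_right H.hG.2.1 (Real.exp_pos _).le

/-- the horizontal sides -/
theorem horiz (H : Hyp C A y lam l s) {w : ℂ} (h1 : |(w - s).re| ≤ 2 * A * lam ^ 2)
    (h2 : |(w - s).im| = 4 * A * lam ^ 2) :
    ‖ph s w‖ ≤ ‖hh (I * y)‖ * Real.exp (-(A ^ 2 * lam ^ 4)) := by
  have hL := H.lam400
  have hA := H.hA
  have hC := H.hC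
  have hy := H.hy
  have hAl : 0 ≤ A * lam ^ 2 := by positivity
  have hd : ‖w - I * y‖ ≤ 7 * A * lam ^ 2 := by
    have e : w - I * y = (w - s) + (s - I * y) := by ring
    rw [e]
    refine (norm_add_le _ _).trans ?_
    have h3 := Complex.norm_le_abs_re_add_abs_im (w - s)
    have h4 := H.hs
    linarith
  have hd8 : ‖w - I * y‖ ≤ y / 8 := by
    have := H.ybig2
    linarith
  have h3 := H.hh_le hd8
  have h4 : lam * ‖w - I * y‖ + C * ‖w - I * y‖ ^ 2 / y ≤ 7 * A * lam ^ 3 + 1 := by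
    apply add_le_add
    · calc lam * ‖w - I * y‖ ≤ lam * (7 * A * lam ^ 2) :=
            mul_le_mul_of_nonneg_left hd (by linarith)
        _ = 7 * A * lam ^ 3 := by ring
    · rw [div_le_iff₀ hy, one_mul]
      have h5 := pow_le_pow_left₀ (norm_nonneg _) hd 2
      have h7 : C * ‖w - I * y‖ ^ 2 ≤ C * (7 * A * lam ^ 2) ^ 2 :=
        mul_le_mul_of_nonneg_left h5 (by linarith)
      have h8 := H.yb
      have h9 : 0 ≤ C * A ^ 2 * lam ^ 4 := by positivity
      nlinarith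
  unfold ph
  rw [norm_mul, norm_e]
  have h5 : ((w - s).re ^ 2 - (w - s).im ^ 2) / 4 ≤ -(3 * (A ^ 2 * lam ^ 4)) := by
    have h6 := pow_le_pow_left₀ (abs_nonneg _) h1 2
    rw [sq_abs] at h6
    rw [← sq_abs (w - s).im, h2]
    nlinarith
  calc ‖hh w‖ * Real.exp (((w - s).re ^ 2 - (w - s).im ^ 2) / 4)
      ≤ (‖hh (I * y)‖ * Real.exp (7 * A * lam ^ 3 + 1)) * Real.exp (-(3 * (A ^ 2 * lam ^ 4))) := by
        refine mul_le_mul (h3.trans ?_) (Real.exp_le_exp.2 h5) (Real.exp_pos _).le (by positivity)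
        exact mul_le_mul_of_nonneg_left (Real.exp_le_exp.2 h4) (norm_nonneg _)
    _ = ‖hh (I * y)‖ * Real.exp (7 * A * lam ^ 3 + 1 + -(3 * (A ^ 2 * lam ^ 4))) := by
        rw [mul_assoc, ← Real.exp_add]
    _ ≤ ‖hh (I * y)‖ * Real.exp (-(A ^ 2 * lam ^ 4)) := by
        refine mul_le_mul_of_nonneg_left (Real.exp_le_exp.2 ?_) (norm_nonneg _)
        have h6 : A * lam ^ 3 * 400 ≤ A * lam ^ 3 * (A * lam) := by
          apply mul_le_mul_of_nonneg_left _ (by positivity)
          nlinarith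
        have h7 : 1 ≤ A * lam ^ 3 := by
          have : 1 ≤ lam ^ 3 := one_le_pow₀ (by linarith)
          nlinarith
        nlinarith

/-- the main side: comparison with the Gaussian -/
theorem mainside (H : Hyp C A y lam l s) {v : ℝ} (hv : |v - s.im| ≤ 4 * A * lam ^ 2) :
    ‖ph s ((s.re - 2 * l.re : ℝ) + v * I) -
      hh (I * y) * cexp (l * (s - I * y) - l ^ 2) *
        ((Real.exp (-(1 / 4 * (v - (s.im - 2 * l.im)) ^ 2)) : ℝ) : ℂ)‖ ≤
      (72 * C * A ^ 2 * lam ^ 4 / y * ‖hh (I * y) * cexp (l * (s - I * y) - l ^ 2)‖) *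
        Real.exp (-(1 / 4 * (v - (s.im - 2 * l.im)) ^ 2)) := by
  have hL := H.lam400
  have hA := H.hA
  have hC := H.hC
  have hy := H.hy
  have hAl : 0 ≤ A * lam ^ 2 := by positivity
  have h2 := H.lin2
  set w : ℂ := (s.re - 2 * l.re : ℝ) + v * I with hw
  set u : ℝ := v - (s.im - 2 * l.im) with hu
  have hwu : w = s - 2 * l + I * u := by
    apply Complex.ext
    · simp [hw, hu]
    · simp [hw, hu]
  have hws : w - s = -2 * l + I * u := by rw [hwu]; ring
  have hwsr : (w - s).re = -2 * l.re := by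
    rw [hws]
    simp
  have hwsi : (w - s).im = v - s.im := by
    rw [hws]
    simp [hu]
    ring
  have hlr : |l.re| ≤ lam := (Complex.abs_re_le_norm l).trans H.nl
  have hd : ‖w - I * y‖ ≤ 6 * A * lam ^ 2 := by
    have e : w - I * y = (w - s) + (s - I * y) := by ring
    rw [e]
    refine (norm_add_le _ _).trans ?_
    have h3 := Complex.norm_le_abs_re_add_abs_im (w - s)
    rw [hwsr, hwsi, abs_mul] at h3
    have h4 := H.hs
    have h5 : |(-2 : ℝ)| = 2 := by norm_num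
    rw [h5] at h3
    linarith
  have hd8 : ‖w - I * y‖ ≤ y / 8 := by
    have := H.ybig2
    linarith
  obtain ⟨e, he, he2⟩ := H.hG.2.2 (w - I * y) hd8
  rw [add_sub_cancel] at he2
  have he' : ‖e‖ ≤ 36 * C * A ^ 2 * lam ^ 4 / y := by
    refine he.trans ?_
    refine div_le_div_of_nonneg_right ?_ hy.le
    have h5 := pow_le_pow_left₀ (norm_nonneg _) hd 2
    have h7 : C * ‖w - I * y‖ ^ 2 ≤ C * (6 * A * lam ^ 2) ^ 2 :=
      mul_le_mul_of_nonneg_left h5 (by linarith)
    refine h7.trans (le_of_eq ?_)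
    ring
  have he1 : ‖e‖ ≤ 1 := by
    refine he'.trans ?_
    rw [div_le_one hy]
    have h8 := H.yb
    have h9 : 0 ≤ C * A ^ 2 * lam ^ 4 := by positivity
    nlinarith
  have hexp : ph s w = hh (I * y) * cexp (l * (s - I * y) - l ^ 2) *
      ((Real.exp (-(1 / 4 * u ^ 2)) : ℝ) : ℂ) * cexp e := by
    unfold ph
    rw [he2, Complex.ofReal_exp, mul_assoc, mul_assoc, mul_assoc, ← Complex.exp_add,
      ← Complex.exp_add, ← Complex.exp_add]
    congr 2
    rw [hws, hwu]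
    push_cast
    linear_combination (1 / 4 : ℂ) * (u : ℂ) ^ 2 * Complex.I_sq
  rw [hexp]
  have e3 : hh (I * y) * cexp (l * (s - I * y) - l ^ 2) *
      ((Real.exp (-(1 / 4 * u ^ 2)) : ℝ) : ℂ) * cexp e -
      hh (I * y) * cexp (l * (s - I * y) - l ^ 2) * ((Real.exp (-(1 / 4 * u ^ 2)) : ℝ) : ℂ) =
      hh (I * y) * cexp (l * (s - I * y) - l ^ 2) * ((Real.exp (-(1 / 4 * u ^ 2)) : ℝ) : ℂ) *
        (cexp e - 1) := by ring
  rw [e3, norm_mul, norm_mul (hh (I * y) * cexp (l * (s - I * y) - l ^ 2)), Complex.norm_real,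
    Real.norm_eq_abs, abs_of_pos (Real.exp_pos _)]
  have h6 := Complex.norm_exp_sub_one_le he1
  have h7 : ‖cexp e - 1‖ ≤ 72 * C * A ^ 2 * lam ^ 4 / y := by
    refine h6.trans ?_
    have : 2 * (36 * C * A ^ 2 * lam ^ 4 / y) = 72 * C * A ^ 2 * lam ^ 4 / y := by ring
    rw [← this]
    exact mul_le_mul_of_nonneg_left he' (by norm_num)
  calc ‖hh (I * y) * cexp (l * (s - I * y) - l ^ 2)‖ * Real.exp (-(1 / 4 * u ^ 2)) * ‖cexp e - 1‖
      ≤ ‖hh (I * y) * cexp (l * (s - I * y) - l ^ 2)‖ * Real.exp (-(1 / 4 * u ^ 2)) *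
        (72 * C * A ^ 2 * lam ^ 4 / y) := mul_le_mul_of_nonneg_left h7 (by positivity)
    _ = _ := by ring

/-- lower bound for the main term -/
theorem Mlow (H : Hyp C A y lam l s) : ‖hh (I * y)‖ * Real.exp (-(A ^ 2 * lam ^ 4)) ≤
    ‖hh (I * y) * cexp (l * (s - I * y) - l ^ 2)‖ * Real.exp (-(1 / 2 * (A ^ 2 * lam ^ 4))) := by
  have hL := H.lam400
  have hA := H.hA
  rw [norm_mul, Complex.norm_exp, mul_assoc, ← Real.exp_add]
  refine mul_le_mul_of_nonneg_left (Real.exp_le_exp.2 ?_) (norm_nonneg _)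
  have h1 : -(A * lam ^ 3 + lam ^ 2) ≤ (l * (s - I * y) - l ^ 2).re := by
    have h2 := (abs_le.1 (Complex.abs_re_le_norm (l * (s - I * y) - l ^ 2))).1
    have h3 : ‖l * (s - I * y) - l ^ 2‖ ≤ A * lam ^ 3 + lam ^ 2 := by
      refine (norm_sub_le _ _).trans ?_
      rw [norm_mul, norm_pow]
      have h4 := H.nl
      have h5 : ‖l‖ * ‖s - I * y‖ ≤ lam * (A * lam ^ 2) :=
        mul_le_mul h4 H.hs (norm_nonneg _) (by linarith)
      have h6 := pow_le_pow_left₀ (norm_nonneg l) h4 2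
      nlinarith
    linarith
  have h6 : A * lam ^ 3 * 400 ≤ A * lam ^ 3 * (A * lam) := by
    apply mul_le_mul_of_nonneg_left _ (by positivity)
    nlinarith
  have h7 : lam ^ 2 ≤ A * lam ^ 3 := by
    have : lam ^ 2 * 1 ≤ lam ^ 2 * (A * lam) := by
      apply mul_le_mul_of_nonneg_left _ (by positivity)
      nlinarith
    nlinarith
  nlinarith

end Hyp

/-- `hh` is differentiable in the upper half plane -/
theorem hh_diff {w : ℂ} (hw : 0 < w.im) : DifferentiableAt ℂ hh w := by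
  unfold hh
  have h1 : DifferentiableAt ℂ (fun w : ℂ => Gamma (1 + w / 2)) w := by
    have h2 : DifferentiableAt ℂ Gamma (1 + w / 2) := by
      refine Complex.differentiableAt_Gamma _ fun m hm => ?_
      have h3 := congrArg Complex.im hm
      have h4 : (1 + w / 2 : ℂ).im = w.im / 2 := by
        rw [Complex.add_im, Complex.one_im, zero_add,
          show (2 : ℂ) = ((2 : ℝ) : ℂ) by norm_num, Complex.div_ofReal_im]
      rw [h4, Complex.neg_im, Complex.natCast_im] at h3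
      linarith
    exact h2.comp w (by fun_prop)
  exact ((differentiableAt_id.sub_const 1).mul h1).mul (by fun_prop)

theorem ph_diff (s : ℂ) {w : ℂ} (hw : 0 < w.im) : DifferentiableAt ℂ (ph s) w := by
  unfold ph
  exact (hh_diff hw).mul (by fun_prop)

namespace Hyp

theorem sqrt_pi_bd : 1 ≤ Real.sqrt Real.pi ∧ Real.sqrt Real.pi ≤ 2 := by
  constructor
  · rw [Real.one_le_sqrt]
    linarith [Real.pi_gt_three]
  · rw [Real.sqrt_le_left (by norm_num)]
    linarith [Real.pi_lt_four]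

theorem num5 (H : Hyp C A y lam l s) :
    4 + 4 * A * lam ^ 2 + 144 * C * A ^ 2 * lam ^ 4 + 6 ≤ 2 * lam ^ 5 := by
  have hL := H.lam400
  have hA := H.hA
  have hC := H.hC
  have c1 := H.big
  clear H
  have c2 : 400 * C * A ^ 2 * lam ^ 4 ≤ lam * lam ^ 4 :=
    mul_le_mul_of_nonneg_right c1 (by positivity)
  have h6 : 1 ≤ C * A := by nlinarith
  have h7 : 1 ≤ lam ^ 2 := one_le_pow₀ (by linarith)
  have h8 : 1 ≤ C * A * lam ^ 2 := by nlinarith
  have c3 : 4 * A * lam ^ 2 ≤ 4 * C * A ^ 2 * lam ^ 4 := by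
    have d1 : 4 * A * lam ^ 2 * 1 ≤ 4 * A * lam ^ 2 * (C * A * lam ^ 2) :=
      mul_le_mul_of_nonneg_left h8 (by positivity)
    calc 4 * A * lam ^ 2 = 4 * A * lam ^ 2 * 1 := by ring
      _ ≤ 4 * A * lam ^ 2 * (C * A * lam ^ 2) := d1
      _ = 4 * C * A ^ 2 * lam ^ 4 := by ring
  have c4 : 1 ≤ C * A ^ 2 * lam ^ 4 := by
    have h9 : 1 ≤ A * lam ^ 2 := by nlinarith
    calc (1 : ℝ) = 1 * 1 := by ring
      _ ≤ (C * A * lam ^ 2) * (A * lam ^ 2) := mul_le_mul h8 h9 (by norm_num) (by positivity)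
      _ = C * A ^ 2 * lam ^ 4 := by ring
  have e1 : lam * lam ^ 4 = lam ^ 5 := by ring
  have e2 : 0 ≤ C * A ^ 2 * lam ^ 4 := by positivity
  linarith

theorem numE (H : Hyp C A y lam l s) : Real.exp (-(1 / 2 * (A ^ 2 * lam ^ 4))) ≤ 1 / y := by
  have hL := H.lam400
  have hA := H.hA
  have h1 : y = Real.exp lam := by rw [← H.hlam, Real.exp_log H.hy]
  rw [h1, one_div (Real.exp lam), ← Real.exp_neg]
  apply Real.exp_le_exp.2
  have h3 : 1 ≤ A ^ 2 := one_le_pow₀ hA
  have h4 : (400 : ℝ) ^ 3 ≤ lam ^ 3 := pow_le_pow_left₀ (by norm_num) hL 3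
  have h5 : 2 ≤ A ^ 2 * lam ^ 3 := by nlinarith
  have h2 : lam * 2 ≤ lam * (A ^ 2 * lam ^ 3) := mul_le_mul_of_nonneg_left h5 (by linarith)
  have e1 : lam * (A ^ 2 * lam ^ 3) = A ^ 2 * lam ^ 4 := by ring
  linarith

theorem numfin (H : Hyp C A y lam l s) {z : ℂ}
    (hnorm : 2 * Real.sqrt Real.pi * ‖z‖ ≤ ‖hh (I * y)‖ * Real.exp (-(A ^ 2 * lam ^ 4)) *
        Real.sqrt (Real.pi / (1 / 8 / 2)) +
      2 * (‖hh (I * y)‖ * Real.exp (-(A ^ 2 * lam ^ 4)) * (2 * A * lam ^ 2)) +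
      72 * C * A ^ 2 * lam ^ 4 / y * ‖hh (I * y) * cexp (l * (s - I * y) - l ^ 2)‖ *
        Real.sqrt (Real.pi / (1 / 4)) +
      ‖hh (I * y) * cexp (l * (s - I * y) - l ^ 2)‖ * Real.exp (-(1 / 2 * (A ^ 2 * lam ^ 4))) *
        Real.sqrt (Real.pi / (1 / 16 / 2))) :
    ‖z‖ ≤ lam ^ 5 / y * ‖hh (I * y) * cexp (l * (s - I * y) - l ^ 2)‖ := by
  have hL := H.lam400
  have hA := H.hA
  have hC := H.hC
  have hy := H.hy
  have hMl := H.Mlow
  obtain ⟨g, hgdef⟩ : ∃ g, g = ‖hh (I * y)‖ := ⟨_, rfl⟩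
  obtain ⟨M, hM⟩ : ∃ M, M = ‖hh (I * y) * cexp (l * (s - I * y) - l ^ 2)‖ := ⟨_, rfl⟩
  obtain ⟨E0, hE0⟩ : ∃ E0, E0 = Real.exp (-(A ^ 2 * lam ^ 4)) := ⟨_, rfl⟩
  obtain ⟨Z, hZ⟩ : ∃ Z, Z = ‖z‖ := ⟨_, rfl⟩
  have hM0 : 0 ≤ M := by rw [hM]; exact norm_nonneg _
  have hg0 : 0 ≤ g := by rw [hgdef]; exact norm_nonneg _
  have hE00 : 0 < E0 := by rw [hE0]; exact Real.exp_pos _
  have hsp := sqrt_pi_bd
  rw [← hgdef, ← hM, ← hE0] at hMl hnorm
  rw [← hZ] at hnorm ⊢
  rw [← hM]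
  obtain ⟨sp, hspd⟩ : ∃ sp, sp = Real.sqrt Real.pi := ⟨_, rfl⟩
  rw [← hspd] at hsp hnorm
  have hsp0 : 0 < sp := by linarith [hsp.1]
  have s1 : Real.sqrt (Real.pi / (1 / 8 / 2)) = 4 * sp := by
    rw [hspd, show Real.pi / (1 / 8 / 2) = 4 ^ 2 * Real.pi by ring, Real.sqrt_mul (by norm_num),
      Real.sqrt_sq (by norm_num)]
  have s2 : Real.sqrt (Real.pi / (1 / 4)) = 2 * sp := by
    rw [hspd, show Real.pi / (1 / 4) = 2 ^ 2 * Real.pi by ring, Real.sqrt_mul (by norm_num),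
      Real.sqrt_sq (by norm_num)]
  have s3 : Real.sqrt (Real.pi / (1 / 16 / 2)) ≤ 6 * sp := by
    rw [hspd, show Real.pi / (1 / 16 / 2) = 32 * Real.pi by ring, Real.sqrt_mul (by norm_num)]
    refine mul_le_mul_of_nonneg_right ?_ (Real.sqrt_nonneg _)
    rw [Real.sqrt_le_left (by norm_num)]
    norm_num
  rw [s1, s2] at hnorm
  set E1 := Real.exp (-(1 / 2 * (A ^ 2 * lam ^ 4))) with hE1
  have hE1y : E1 ≤ 1 / y := H.numE
  have hMy : 0 ≤ M / y := by positivity
  have hgE : g * E0 ≤ M / y := by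
    refine hMl.trans ?_
    calc M * E1 ≤ M * (1 / y) := mul_le_mul_of_nonneg_left hE1y hM0
      _ = M / y := by ring
  have hgE' : M * E1 ≤ M / y := by
    calc M * E1 ≤ M * (1 / y) := mul_le_mul_of_nonneg_left hE1y hM0
      _ = M / y := by ring
  have hfin : 2 * sp * Z ≤ 2 * sp * (M / y * lam ^ 5) := by
    have a1 : g * E0 * (4 * sp) ≤ M / y * (4 * sp) :=
      mul_le_mul_of_nonneg_right hgE (by positivity)
    have a2 : 2 * (g * E0 * (2 * A * lam ^ 2)) ≤ M / y * (4 * A * lam ^ 2) * sp := by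
      have b1 : g * E0 * (2 * A * lam ^ 2) ≤ M / y * (2 * A * lam ^ 2) :=
        mul_le_mul_of_nonneg_right hgE (by positivity)
      have b2 : M / y * (4 * A * lam ^ 2) * 1 ≤ M / y * (4 * A * lam ^ 2) * sp :=
        mul_le_mul_of_nonneg_left hsp.1 (by positivity)
      linarith
    have a3 : 72 * C * A ^ 2 * lam ^ 4 / y * M * (2 * sp) =
        M / y * (144 * C * A ^ 2 * lam ^ 4) * sp := by ring
    have a4 : M * E1 * Real.sqrt (Real.pi / (1 / 16 / 2)) ≤ M / y * (6 * sp) :=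
      mul_le_mul hgE' s3 (Real.sqrt_nonneg _) hMy
    have a5 := H.num5
    have a6 := mul_le_mul_of_nonneg_left a5 (by positivity : 0 ≤ M / y * sp)
    calc 2 * sp * Z ≤ _ := hnorm
      _ ≤ M / y * (4 * sp) + M / y * (4 * A * lam ^ 2) * sp +
          M / y * (144 * C * A ^ 2 * lam ^ 4) * sp + M / y * (6 * sp) := by
          rw [a3]
          linarith
      _ = M / y * sp * (4 + 4 * A * lam ^ 2 + 144 * C * A ^ 2 * lam ^ 4 + 6) := by ring
      _ ≤ M / y * sp * (2 * lam ^ 5) := a6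
      _ = 2 * sp * (M / y * lam ^ 5) := by ring
  have := le_of_mul_le_mul_left hfin (by positivity : 0 < 2 * sp)
  refine this.trans (le_of_eq ?_)
  ring


theorem final (H : Hyp C A y lam l s) (hg : S_GREP) :
    ‖G s - hh (I * y) * cexp (l * (s - I * y) - l ^ 2)‖ ≤
      lam ^ 5 / y * ‖hh (I * y) * cexp (l * (s - I * y) - l ^ 2)‖ := by
  have hL := H.lam400
  have hA := H.hA
  have hC := H.hC
  have hy := H.hy
  have h2l := H.lin2
  have hAl : 0 ≤ A * lam ^ 2 := by positivity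
  obtain ⟨g1, g2, -⟩ := hg
  obtain ⟨hint, hGs⟩ := g1 s
  set g : ℝ := ‖hh (I * y)‖ with hgdef
  set M : ℂ := hh (I * y) * cexp (l * (s - I * y) - l ^ 2) with hM
  set t : ℝ := s.im with ht
  set V : ℝ := 4 * A * lam ^ 2 with hV
  have hV0 : 0 < V := by
    rw [hV]
    positivity
  set S : Set ℝ := Set.Ioc (t - V) (t + V) with hS
  set f : ℝ → ℂ := fun v => hh (2 + I * v) * cexp ((2 + I * v - s) ^ 2 / 4) with hf
  set f' : ℝ → ℂ := fun v => ph s ((s.re - 2 * l.re : ℝ) + v * I) with hf'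
  set t' : ℝ := s.im - 2 * l.im with ht'
  set gs : ℝ → ℂ := fun v => M * ((Real.exp (-(1 / 4 * (v - t') ^ 2)) : ℝ) : ℂ) with hgs
  set E0 : ℝ := Real.exp (-(A ^ 2 * lam ^ 4)) with hE0
  -- (1) tail of `f`
  have T1 : ‖∫ v in Sᶜ, f v‖ ≤ g * E0 * Real.sqrt (Real.pi / (1 / 8 / 2)) := by
    have h1 := tail_le (f := f) (t := t) (V := V) (B := g) (b := 1 / 8) hV0.le (by norm_num)
      (norm_nonneg _) (fun v hv => by
        rcases H.tail hv with h | h
        · exact h
        · exact absurd (g2 v) h)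
    have e1 : (1 : ℝ) / 8 / 2 * V ^ 2 = A ^ 2 * lam ^ 4 := by
      rw [hV]
      ring
    rw [e1] at h1
    exact h1
  -- (2) tail of the Gaussian
  have hlim : |l.im| ≤ lam := (Complex.abs_im_le_norm l).trans H.nl
  have T2 : ‖∫ v in Sᶜ, gs v‖ ≤
      ‖M‖ * Real.exp (-(1 / 2 * (A ^ 2 * lam ^ 4))) * Real.sqrt (Real.pi / (1 / 16 / 2)) := by
    have h1 := tail_le (f := gs) (t := t) (V := V) (B := ‖M‖) (b := 1 / 16) hV0.le (by norm_num)
      (norm_nonneg _) (fun v hv => by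
        simp only [hgs]
        rw [norm_mul, Complex.norm_real, Real.norm_eq_abs, abs_of_pos (Real.exp_pos _)]
        refine mul_le_mul_of_nonneg_left (Real.exp_le_exp.2 ?_) (norm_nonneg _)
        have h3 : |v - t| / 2 ≤ |v - t'| := by
          have h4 : v - t = (v - t') + (-2 * l.im) := by rw [ht']; ring
          have h5 : |v - t| ≤ |v - t'| + 2 * lam := by
            rw [h4]
            refine (abs_add_le _ _).trans ?_
            rw [abs_mul]
            have : |(-2 : ℝ)| = 2 := by norm_num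
            rw [this]
            linarith
          nlinarith
        have h6 := pow_le_pow_left₀ (by positivity) h3 2
        rw [sq_abs, div_pow, sq_abs] at h6
        linarith)
    have e1 : (1 : ℝ) / 16 / 2 * V ^ 2 = 1 / 2 * (A ^ 2 * lam ^ 4) := by
      rw [hV]
      ring
    rw [e1] at h1
    exact h1
  -- (3) the rectangle
  have him : ∀ v ∈ Set.uIcc (t - V) (t + V), 0 < v := by
    intro v hv
    rw [Set.uIcc_of_le (by linarith)] at hv
    have h3 := (abs_le.1 H.im_s).1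
    have h4 := H.ybig2
    have h5 := hv.1
    nlinarith
  have hrect := Complex.integral_boundary_rect_eq_zero_of_differentiableOn (ph s)
    (⟨s.re - 2 * l.re, t - V⟩ : ℂ) (⟨2, t + V⟩ : ℂ) (by
      intro w hw
      refine (ph_diff s ?_).differentiableWithinAt
      exact him _ hw.2)
  simp only at hrect
  have hlre : |l.re| ≤ lam := (Complex.abs_re_le_norm l).trans H.nl
  have hsre := H.re_s
  have hwidth : |2 - (s.re - 2 * l.re)| ≤ 2 * A * lam ^ 2 := by
    have a1 := abs_le.1 hlre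
    have a2 := abs_le.1 hsre
    rw [abs_le]
    constructor <;> nlinarith [a1.1, a1.2, a2.1, a2.2]
  have hhor : ∀ c : ℝ, |c - t| = V → ‖∫ x in (s.re - 2 * l.re)..2, ph s (x + c * I)‖ ≤
      g * E0 * (2 * A * lam ^ 2) := by
    intro c hc
    refine (intervalIntegral.norm_integral_le_of_norm_le_const (C := g * E0) ?_).trans ?_
    · intro x hx
      refine H.horiz ?_ ?_
      · have e : ((x : ℂ) + c * I - s).re = x - s.re := by simp
        rw [e]
        have hx' := Set.uIoc_subset_uIcc hx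
        have a1 := abs_le.1 hlre
        have a2 := abs_le.1 hsre
        rcases Set.mem_uIcc.1 hx' with h | h
        · rw [abs_le]
          constructor <;> nlinarith [a1.1, a1.2, a2.1, a2.2, h.1, h.2]
        · rw [abs_le]
          constructor <;> nlinarith [a1.1, a1.2, a2.1, a2.2, h.1, h.2]
      · have e : ((x : ℂ) + c * I - s).im = c - t := by simp [ht]
        rw [e, hc]
    · exact mul_le_mul_of_nonneg_left hwidth (by positivity)
  have T3 : ‖(∫ v in S, f v) - ∫ v in S, f' v‖ ≤ 2 * (g * E0 * (2 * A * lam ^ 2)) := by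
    have e1 : (∫ v in S, f v) = ∫ v in (t - V)..(t + V), ph s ((2 : ℝ) + v * I) := by
      rw [intervalIntegral.integral_of_le (by linarith)]
      refine setIntegral_congr_fun measurableSet_Ioc fun v _ => ?_
      simp only [hf, ph]
      push_cast
      rw [mul_comm (v : ℂ) I]
    have e2 : (∫ v in S, f' v) = ∫ v in (t - V)..(t + V), ph s ((s.re - 2 * l.re : ℝ) + v * I) := by
      rw [intervalIntegral.integral_of_le (by linarith)]
    rw [e1, e2]
    have h1 := hhor (t - V) (by rw [show t - V - t = -V by ring, abs_neg, abs_of_pos hV0])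
    have h2 := hhor (t + V) (by rw [show t + V - t = V by ring, abs_of_pos hV0])
    set P1 := ∫ x in (s.re - 2 * l.re)..2, ph s (x + (t - V : ℝ) * I) with hP1
    set P2 := ∫ x in (s.re - 2 * l.re)..2, ph s (x + (t + V : ℝ) * I) with hP2
    set Q1 := ∫ v in (t - V)..(t + V), ph s ((2 : ℝ) + v * I) with hQ1
    set Q2 := ∫ v in (t - V)..(t + V), ph s ((s.re - 2 * l.re : ℝ) + v * I) with hQ2
    have h3 : I * (Q1 - Q2) = P2 - P1 := by
      have h4 : P1 - P2 + I • Q1 - I • Q2 = 0 := hrect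
      rw [smul_eq_mul, smul_eq_mul] at h4
      linear_combination h4
    have h5 : ‖Q1 - Q2‖ = ‖P2 - P1‖ := by
      rw [← h3, norm_mul, Complex.norm_I, one_mul]
    rw [h5]
    refine (norm_sub_le _ _).trans ?_
    linarith
  -- (4) the main side
  have hgsI : Integrable gs := by
    have h1 := (gauss_int (1 / 4) t' (by norm_num)).ofReal (𝕜 := ℂ)
    exact h1.const_mul M
  have hf'I : IntegrableOn f' S := by
    have hc : ContinuousOn f' (Set.Icc (t - V) (t + V)) := by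
      intro v hv
      have h1 : ContinuousAt (ph s) ((s.re - 2 * l.re : ℝ) + v * I) := by
        refine (ph_diff s ?_).continuousAt
        have : (((s.re - 2 * l.re : ℝ) : ℂ) + v * I).im = v := by simp
        rw [this]
        refine him v ?_
        rwa [Set.uIcc_of_le (by linarith)]
      have h2 : ContinuousAt f' v :=
        ContinuousAt.comp (f := fun v : ℝ => ((s.re - 2 * l.re : ℝ) : ℂ) + v * I) h1 (by fun_prop)
      exact h2.continuousWithinAt
    exact (hc.integrableOn_Icc).mono_set Set.Ioc_subset_Icc_self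
  have T4 : ‖(∫ v in S, f' v) - ∫ v in S, gs v‖ ≤
      72 * C * A ^ 2 * lam ^ 4 / y * ‖M‖ * Real.sqrt (Real.pi / (1 / 4)) := by
    rw [← integral_sub hf'I hgsI.integrableOn]
    have hI : Integrable (fun v : ℝ => (72 * C * A ^ 2 * lam ^ 4 / y * ‖M‖) *
        Real.exp (-(1 / 4 * (v - t') ^ 2))) := (gauss_int (1 / 4) t' (by norm_num)).const_mul _
    have h1 : ‖∫ v in S, (f' v - gs v)‖ ≤ ∫ v in S, (72 * C * A ^ 2 * lam ^ 4 / y * ‖M‖) *
        Real.exp (-(1 / 4 * (v - t') ^ 2)) := by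
      refine norm_integral_le_of_norm_le hI.integrableOn ?_
      refine (ae_restrict_iff' measurableSet_Ioc).2 (Eventually.of_forall fun v hv => ?_)
      refine H.mainside ?_
      rw [abs_le]
      constructor <;> linarith [hv.1, hv.2]
    refine h1.trans ?_
    have h2 := setIntegral_le_integral (s := S) hI
      (Eventually.of_forall fun v => by simp only [Pi.zero_apply]; positivity)
    refine h2.trans (le_of_eq ?_)
    rw [integral_const_mul, gauss_val]
  -- (5) the Gaussian integral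
  have T5 : (∫ v, gs v) = M * (2 * Real.sqrt Real.pi : ℝ) := by
    simp only [hgs]
    rw [integral_const_mul, integral_complex_ofReal, gauss_val]
    congr 2
    rw [show Real.pi / (1 / 4) = 2 ^ 2 * Real.pi by ring, Real.sqrt_mul (by norm_num),
      Real.sqrt_sq (by norm_num)]
  -- assembly
  have hsp := sqrt_pi_bd
  set sp := Real.sqrt Real.pi with hspd
  have hsp0 : 0 < sp := by linarith [hsp.1]
  have key : ((2 * sp : ℝ) : ℂ) * (G s - M) = (∫ v in Sᶜ, f v) +
      ((∫ v in S, f v) - ∫ v in S, f' v) + ((∫ v in S, f' v) - ∫ v in S, gs v) -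
      ∫ v in Sᶜ, gs v := by
    have h1 : (∫ v, f v) = (∫ v in S, f v) + ∫ v in Sᶜ, f v :=
      (integral_add_compl measurableSet_Ioc hint).symm
    have h2 : (∫ v, gs v) = (∫ v in S, gs v) + ∫ v in Sᶜ, gs v :=
      (integral_add_compl measurableSet_Ioc hgsI).symm
    have h3 : ((2 * sp : ℝ) : ℂ) * G s = ∫ v, f v := by
      rw [hGs]
      have h4 : ((2 * sp : ℝ) : ℂ) ≠ 0 := by
        rw [Complex.ofReal_ne_zero]
        positivity
      rw [← mul_assoc, mul_one_div_cancel h4, one_mul]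
    rw [mul_sub, h3, h1]
    rw [T5] at h2
    linear_combination -h2
  have hnorm : 2 * sp * ‖G s - M‖ ≤ g * E0 * Real.sqrt (Real.pi / (1 / 8 / 2)) +
      2 * (g * E0 * (2 * A * lam ^ 2)) +
      72 * C * A ^ 2 * lam ^ 4 / y * ‖M‖ * Real.sqrt (Real.pi / (1 / 4)) +
      ‖M‖ * Real.exp (-(1 / 2 * (A ^ 2 * lam ^ 4))) * Real.sqrt (Real.pi / (1 / 16 / 2)) := by
    have h1 : ‖((2 * sp : ℝ) : ℂ) * (G s - M)‖ = 2 * sp * ‖G s - M‖ := by
      rw [norm_mul, Complex.norm_real, Real.norm_eq_abs, abs_of_pos (by positivity)]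
    rw [← h1, key]
    refine (norm_sub_le _ _).trans ?_
    refine add_le_add ?_ T2
    refine (norm_add_le _ _).trans ?_
    refine add_le_add ?_ T4
    exact (norm_add_le _ _).trans (add_le_add T1 T3)
  exact H.numfin hnorm

end Hyp

theorem GamAt_mono {C C' y : ℝ} {l : ℂ} (h : C ≤ C') (hy : 0 < y) (hG : GamAt C y l) :
    GamAt C' y l := by
  obtain ⟨h1, h2, h3⟩ := hG
  refine ⟨h1.trans h, h2, fun d hd => ?_⟩
  obtain ⟨e, he, he2⟩ := h3 d hd
  refine ⟨e, he.trans ?_, he2⟩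
  exact div_le_div_of_nonneg_right (mul_le_mul_of_nonneg_right h (by positivity)) hy.le

theorem gasy (hg : S_GREP) : S_GASY := by
  intro C C2
  obtain ⟨C', hC'⟩ : ∃ C', C' = max C 1 := ⟨_, rfl⟩
  obtain ⟨A, hA⟩ : ∃ A, A = max C2 1 := ⟨_, rfl⟩
  have hC1 : 1 ≤ C' := by rw [hC']; exact le_max_right _ _
  have hA1 : 1 ≤ A := by rw [hA]; exact le_max_right _ _
  have hCC : C ≤ C' := by rw [hC']; exact le_max_left _ _
  have hAA : C2 ≤ A := by rw [hA]; exact le_max_left _ _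
  refine ⟨Real.exp (400 * C' * A ^ 2), 5, fun y hy l hG s hs => ?_⟩
  have hy0 : 0 < y := (Real.exp_pos _).trans_le hy
  have hlog : 400 * C' * A ^ 2 ≤ Real.log y := by
    rw [Real.le_log_iff_exp_le hy0]
    exact hy
  have hCA : 1 ≤ C' * A ^ 2 := by
    have : 1 ≤ A ^ 2 := one_le_pow₀ hA1
    nlinarith
  have hl0 : 400 ≤ Real.log y := by nlinarith
  have hyb : 64 * C' * A ^ 2 * Real.log y ^ 4 ≤ y := by
    have h1 := Real.pow_div_factorial_le_exp (Real.log y) (by linarith) 6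
    rw [Real.exp_log hy0] at h1
    have h2 : (Nat.factorial 6 : ℝ) = 720 := by norm_num [Nat.factorial]
    rw [h2, div_le_iff₀ (by norm_num)] at h1
    have h3 : Real.log y ^ 6 = Real.log y ^ 4 * (Real.log y * Real.log y) := by ring
    have h4 : (400 * C' * A ^ 2) * 400 ≤ Real.log y * Real.log y :=
      mul_le_mul hlog hl0 (by norm_num) (by linarith)
    have h5 : Real.log y ^ 4 * ((400 * C' * A ^ 2) * 400) ≤ Real.log y ^ 6 := by
      rw [h3]
      exact mul_le_mul_of_nonneg_left h4 (by positivity)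
    nlinarith
  have H : Hyp C' A y (Real.log y) l s :=
    { hC := hC1, hA := hA1, hlam := rfl, hy := hy0, big := hlog, yb := hyb,
      hG := GamAt_mono hCC hy0 hG,
      hs := hs.trans (mul_le_mul_of_nonneg_right hAA (by positivity)) }
  exact H.final hg

end Pool.Agent.W462.XI
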